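import Pool.Agent.W622.SC.Final

/-! # MP_121bc0_gt, Q1: a counterexample

A finite complex `X` with a base point preserving homotopy equivalence `h` to a double cover such
that the limit group `G` is normal and finitely presented but the cover of `X` with fundamental
group `G` is not of finite type. -/

set_option autoImplicit false

namespace Pool.Agent.Results.MP_121bc0_gt.FiniteTypeLimit

/-- A space is of finite type: it is homotopy equivalent to a CW complex with finitely many cells in
each dimension. -/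
def OfFiniteType (Y : Type) [TopologicalSpace Y] : Prop :=
  ∃ (K : Type) (_ : TopologicalSpace K) (_ : T2Space K)
    (_ : Topology.CWComplex (Set.univ : Set K)),
    Topology.RelCWComplex.FiniteType (Set.univ : Set K) ∧
      Nonempty (ContinuousMap.HomotopyEquiv Y K)

/-- The endomorphism `h_# = (q ∘ h)_#` of the fundamental group. -/
noncomputable def hSharp {X X' : Type} [TopologicalSpace X] [TopologicalSpace X'] {x₀ : X}
    (q : C(X', X)) (h : C(X, X')) (hx : q (h x₀) = x₀) : Monoid.End (FundamentalGroup X x₀) :=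
  FundamentalGroup.mapOfEq (q.comp h) hx

theorem result : ∃ (X : Type) (_ : TopologicalSpace X) (_ : T2Space X)
    (_ : Topology.CWComplex (Set.univ : Set X)) (x₀ : X)
    (X' : Type) (_ : TopologicalSpace X') (q : C(X', X)) (h : C(X, X')) (hx : q (h x₀) = x₀)
    (Xbar : Type) (_ : TopologicalSpace Xbar) (p : C(Xbar, X)) (xbar : Xbar)
    (G : Subgroup (FundamentalGroup X x₀)),
    PathConnectedSpace X ∧ PathConnectedSpace X' ∧ PathConnectedSpace Xbar ∧
    IsCoveringMap q ∧ (∀ x, Nat.card (q ⁻¹' {x}) = 2) ∧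
    (∃ g : C(X', X), g (h x₀) = x₀ ∧ (g.comp h).Homotopic (ContinuousMap.id X) ∧
      (h.comp g).Homotopic (ContinuousMap.id X')) ∧
    G = ⨅ k : ℕ, MonoidHom.range (hSharp q h hx ^ (k + 1) : Monoid.End _) ∧
    G.Normal ∧
    (∃ (n : ℕ) (R : Finset (FreeGroup (Fin n))),
      Nonempty (↥G ≃* PresentedGroup (R : Set (FreeGroup (Fin n))))) ∧
    IsCoveringMap p ∧ p xbar = x₀ ∧
    (∀ γ : Path x₀ x₀, (∃ γ' : Path xbar xbar, ∀ s, p (γ' s) = γ s) ↔
      FundamentalGroup.fromPath (Quotient.mk _ γ) ∈ G) ∧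
    Topology.RelCWComplex.Finite (Set.univ : Set X) ∧
    OfFiniteType X ∧ ¬ OfFiniteType Xbar := by
  obtain ⟨X, _, _, cw, x₀, X', _, q, h, hx, Z, _, p, z₀, G, hG, hfin, hX, hX', hZ, hq, hq2, hh,
    hn, hfp, hp, hpz, hpl, hnd, hnf⟩ := Pool.Agent.W622.SC.hyps.limit
  refine ⟨X, inferInstance, inferInstance, cw, x₀, X', inferInstance, q, h, hx, Z, inferInstance,
    p, z₀, G, hX, hX', hZ, hq, hq2, hh, hG, hn, hfp, hp, hpz, hpl, hfin,
    ⟨X, inferInstance, inferInstance, cw, hfin.toFiniteType,
      ⟨ContinuousMap.HomotopyEquiv.refl X⟩⟩, hnf⟩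

end Pool.Agent.Results.MP_121bc0_gt.FiniteTypeLimit
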